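import Mathlib

/-!
# Subgroup lattices that do not embed into subspace lattices over division rings

`Sub(A)` is `AddSubgroup A`, `Sub_D(V)` is `Submodule D V`.

Idea of the proof. Let `e 0, e 1, e 2` be a basis of `A = (ℤ/m)³` and let `q` be a prime divisor of
`m`, `q ≠ m`, so that `0 ≠ <q e 0> ≠ <e 0>`. The multiplication with `q` is described by lattice
terms (von Neumann). So for every lattice embedding `f` into `Sub_D(V)` the subspace `f <q e 0>` is
`q • f <e 0> + f 0`, and this is `f 0` or `f <e 0>`, according to whether `q` is zero or not in `D`.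
-/

set_option autoImplicit false

namespace Pool.Agent.Results.MP_0a2dc5_al.HomocyclicGroups

universe u v w

/-- `f` is a lattice embedding: injective, preserving binary meets and joins (not necessarily
bounds). -/
def IsLatticeEmbedding {L M : Type*} [Lattice L] [Lattice M] (f : L → M) : Prop :=
  Function.Injective f ∧ (∀ x y, f (x ⊓ y) = f x ⊓ f y) ∧ ∀ x y, f (x ⊔ y) = f x ⊔ f y

/-- The lattice of the subgroups of the abelian group `A` has a lattice embedding into the lattice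
of the subspaces of some vector space (of any dimension) over some division ring. -/
def SubEmbeds (A : Type w) [AddCommGroup A] : Prop :=
  ∃ (D : Type u) (_ : DivisionRing D) (V : Type v) (_ : AddCommGroup V) (_ : Module D V)
    (f : AddSubgroup A → Submodule D V), IsLatticeEmbedding f

lemma dvd_cast {a b c : ℤ} (h : a ∣ b) (e : c = b) : a ∣ c := by rw [e]; exact h

section criterion

variable {A : Type w} [AddCommGroup A] (C : AddSubgroup A)

/-- The subgroup generated by `a` and `C`. -/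
def L (a : A) : AddSubgroup A := AddSubgroup.zmultiples a ⊔ C

lemma mem_L {a x : A} : x ∈ L C a ↔ ∃ k : ℤ, x - k • a ∈ C := by
  unfold L
  rw [AddSubgroup.mem_sup]
  constructor
  · rintro ⟨y, hy, z, hz, rfl⟩
    obtain ⟨k, rfl⟩ := AddSubgroup.mem_zmultiples_iff.1 hy
    exact ⟨k, by simpa using hz⟩
  · rintro ⟨k, hk⟩
    exact ⟨k • a, AddSubgroup.mem_zmultiples_iff.2 ⟨k, rfl⟩, x - k • a, hk, by abel⟩

lemma mem_L2 {a b x : A} : x ∈ L C a ⊔ L C b ↔ ∃ k l : ℤ, x - k • a - l • b ∈ C := by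
  rw [AddSubgroup.mem_sup]
  constructor
  · rintro ⟨y, hy, z, hz, rfl⟩
    obtain ⟨k, hk⟩ := (mem_L C).1 hy
    obtain ⟨l, hl⟩ := (mem_L C).1 hz
    refine ⟨k, l, ?_⟩
    have := C.add_mem hk hl
    convert this using 1
    abel
  · rintro ⟨k, l, h⟩
    refine ⟨k • a, (mem_L C).2 ⟨k, by simp⟩, x - k • a, (mem_L C).2 ⟨l, h⟩, by abel⟩

/-- `e1`, `e2`, `e3` is a basis of a subgroup `≅ (ℤ/m)³` of `A/C`. -/
def Basis3 (m : ℕ) (e1 e2 e3 : A) : Prop :=
  ∀ a b c : ℤ, a • e1 + b • e2 + c • e3 ∈ C ↔ (m : ℤ) ∣ a ∧ (m : ℤ) ∣ b ∧ (m : ℤ) ∣ c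

variable {C} {m : ℕ} {e1 e2 e3 : A}

lemma Basis3.swap (he : Basis3 C m e1 e2 e3) : Basis3 C m e2 e1 e3 := by
  intro a b c
  rw [add_comm (a • e2), he b a c]
  tauto

lemma rel1 (a b : A) : L C a ≤ L C (a - b) ⊔ L C b := by
  intro x hx
  obtain ⟨k, hk⟩ := (mem_L C).1 hx
  refine (mem_L2 C).2 ⟨k, k, ?_⟩
  convert hk using 1
  module

lemma rel2 (he : Basis3 C m e1 e2 e3) :
    (L C (e1 - e2) ⊔ L C (e1 - e3)) ⊓ (L C e2 ⊔ L C e3) ≤ L C (e2 - e3) := by
  rintro x ⟨h1, h2⟩
  obtain ⟨a, b, h1⟩ := (mem_L2 C).1 h1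
  obtain ⟨c, d, h2⟩ := (mem_L2 C).1 h2
  have h3 : (-a - b) • e1 + (a + c) • e2 + (b + d) • e3 ∈ C := by
    have := C.sub_mem h1 h2
    convert this using 1
    module
  obtain ⟨h4, h5, h6⟩ := (he _ _ _).1 h3
  refine (mem_L C).2 ⟨c, ?_⟩
  have h7 : (0 : ℤ) • e1 + (0 : ℤ) • e2 + (c + d) • e3 ∈ C := by
    refine (he _ _ _).2 ⟨dvd_zero _, dvd_zero _, ?_⟩
    exact dvd_cast (dvd_add (dvd_add h4 h5) h6) (by ring)
  have := C.add_mem h2 h7
  convert this using 1
  module

lemma rel3 (he : Basis3 C m e1 e2 e3) (k : ℤ) :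
    (L C (e1 - k • e2) ⊔ L C e3) ⊓ (L C (e1 - e3) ⊔ L C e2) ≤ L C (e1 - k • e2 - e3) := by
  rintro x ⟨h1, h2⟩
  obtain ⟨a, b, h1⟩ := (mem_L2 C).1 h1
  obtain ⟨c, d, h2⟩ := (mem_L2 C).1 h2
  have h3 : (c - a) • e1 + (a * k + d) • e2 + (-b - c) • e3 ∈ C := by
    have := C.sub_mem h1 h2
    convert this using 1
    module
  obtain ⟨h4, h5, h6⟩ := (he _ _ _).1 h3
  refine (mem_L C).2 ⟨a, ?_⟩
  have h7 : (0 : ℤ) • e1 + (0 : ℤ) • e2 + (a + b) • e3 ∈ C := by
    refine (he _ _ _).2 ⟨dvd_zero _, dvd_zero _, ?_⟩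
    exact dvd_cast (dvd_neg.2 (dvd_add h4 h6)) (by ring)
  have := C.add_mem h1 h7
  convert this using 1
  module

lemma rel4 (he : Basis3 C m e1 e2 e3) (k : ℤ) :
    (L C (e1 - k • e2 - e3) ⊔ L C (e2 - e3)) ⊓ (L C e1 ⊔ L C e2) ≤ L C (e1 - (k + 1) • e2) := by
  rintro x ⟨h1, h2⟩
  obtain ⟨a, b, h1⟩ := (mem_L2 C).1 h1
  obtain ⟨c, d, h2⟩ := (mem_L2 C).1 h2
  have h3 : (c - a) • e1 + (a * k - b + d) • e2 + (a + b) • e3 ∈ C := by
    have := C.sub_mem h1 h2
    convert this using 1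
    module
  obtain ⟨h4, h5, h6⟩ := (he _ _ _).1 h3
  refine (mem_L C).2 ⟨a, ?_⟩
  have h7 : (0 : ℤ) • e1 + (a + b) • e2 + (-a - b) • e3 ∈ C := by
    refine (he _ _ _).2 ⟨dvd_zero _, h6, ?_⟩
    exact dvd_cast (dvd_neg.2 h6) (by ring)
  have := C.add_mem h1 h7
  convert this using 1
  module

lemma rel5 (he : Basis3 C m e1 e2 e3) (q : ℤ) :
    L C e1 ⊓ (L C e2 ⊔ L C (e2 - q • e1)) ≤ L C (q • e1) := by
  rintro x ⟨h1, h2⟩
  obtain ⟨a, h1⟩ := (mem_L C).1 h1
  obtain ⟨c, d, h2⟩ := (mem_L2 C).1 h2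
  have h3 : (-a - d * q) • e1 + (c + d) • e2 + (0 : ℤ) • e3 ∈ C := by
    have := C.sub_mem h1 h2
    convert this using 1
    module
  obtain ⟨h4, h5, h6⟩ := (he _ _ _).1 h3
  refine (mem_L C).2 ⟨-d, ?_⟩
  have h7 : (0 : ℤ) • e1 + (c + d) • e2 + (0 : ℤ) • e3 ∈ C := by
    exact (he _ _ _).2 ⟨dvd_zero _, h5, dvd_zero _⟩
  have := C.add_mem h2 h7
  convert this using 1
  module

/-- The criterion: if the abelian group `A` has a section `≅ (ℤ/m)³` with `m ≠ 1` and `m` not a
prime, then `Sub(A)` has no lattice embedding into the lattice of the subspaces of a vector space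
over a division ring. -/
theorem not_embeds (he : Basis3 C m e1 e2 e3) (hm : m ≠ 1) (hp : ¬ m.Prime)
    {D : Type u} [DivisionRing D] {V : Type v} [AddCommGroup V] [Module D V]
    (f : AddSubgroup A → Submodule D V) (hf : IsLatticeEmbedding f) : False := by
  obtain ⟨hinj, hinf, hsup⟩ := hf
  have hmono : ∀ {x y : AddSubgroup A}, x ≤ y → f x ≤ f y := by
    intro x y h
    have h1 : x ⊓ y = x := inf_eq_left.2 h
    rw [← h1, hinf]
    exact inf_le_right
  have hrefl : ∀ {x y : AddSubgroup A}, f x ≤ f y → x ≤ y := by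
    intro x y h
    have h1 : f (x ⊓ y) = f x := by rw [hinf]; exact inf_eq_left.2 h
    exact inf_eq_left.1 (hinj h1)
  -- the triples of corresponding vectors
  have key : ∀ {a b c : A}, Basis3 C m a b c → ∀ {x y : V}, x ∈ f (L C a) → y ∈ f (L C b) →
      x - y ∈ f (L C (a - b)) → ∀ k : ℕ, x - (k : D) • y ∈ f (L C (a - (k : ℤ) • b)) := by
    intro a b c hb x y hx hy hxy k
    obtain ⟨z, hz, hxz⟩ : ∃ z, z ∈ f (L C c) ∧ x - z ∈ f (L C (a - c)) := by
      have h1 : x ∈ f (L C (a - c) ⊔ L C c) := hmono (rel1 a c) hx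
      rw [hsup, Submodule.mem_sup] at h1
      obtain ⟨s, hs, z, hz, rfl⟩ := h1
      exact ⟨z, hz, by simpa using hs⟩
    have hyz : y - z ∈ f (L C (b - c)) := by
      apply hmono (rel2 hb)
      rw [hinf, hsup, hsup]
      refine ⟨?_, ?_⟩
      · have h1 : y - z = (x - z) - (x - y) := by abel
        rw [h1]
        exact Submodule.sub_mem _ (Submodule.mem_sup_right hxz) (Submodule.mem_sup_left hxy)
      · exact Submodule.sub_mem _ (Submodule.mem_sup_left hy) (Submodule.mem_sup_right hz)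
    induction k with
    | zero => simpa using hx
    | succ k ih =>
      have h1 : x - (k : D) • y - z ∈ f (L C (a - (k : ℤ) • b - c)) := by
        apply hmono (rel3 hb k)
        rw [hinf, hsup, hsup]
        refine ⟨?_, ?_⟩
        · exact Submodule.sub_mem _ (Submodule.mem_sup_left ih) (Submodule.mem_sup_right hz)
        · have h2 : x - (k : D) • y - z = (x - z) - (k : D) • y := by abel
          rw [h2]
          exact Submodule.sub_mem _ (Submodule.mem_sup_left hxz)
            (Submodule.mem_sup_right (Submodule.smul_mem _ _ hy))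
      have h3 : x - ((k + 1 : ℕ) : D) • y ∈ f (L C (a - ((k : ℤ) + 1) • b)) := by
        apply hmono (rel4 hb k)
        rw [hinf, hsup, hsup]
        refine ⟨?_, ?_⟩
        · have h2 : x - ((k + 1 : ℕ) : D) • y = (x - (k : D) • y - z) - (y - z) := by
            push_cast
            rw [add_smul, one_smul]
            abel
          rw [h2]
          exact Submodule.sub_mem _ (Submodule.mem_sup_left h1) (Submodule.mem_sup_right hyz)
        · exact Submodule.sub_mem _ (Submodule.mem_sup_left hx)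
            (Submodule.mem_sup_right (Submodule.smul_mem _ _ hy))
      push_cast
      push_cast at h3
      exact h3
  -- a prime divisor of `m`, different from `m`
  obtain ⟨q, hq, hqm⟩ : ∃ q : ℕ, q.Prime ∧ q ∣ m := Nat.exists_prime_and_dvd hm
  have hqm' : ¬ m ∣ q := by
    intro h
    have := Nat.dvd_antisymm h hqm
    exact hp (this ▸ hq)
  have hsw := he.swap
  by_cases h0 : (q : D) = 0
  · -- `q = 0` in `D`
    have h1 : f (L C e2) ≤ f (L C (e2 - (q : ℤ) • e1)) := by
      intro y hy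
      obtain ⟨x, hx, hyx⟩ : ∃ x, x ∈ f (L C e1) ∧ y - x ∈ f (L C (e2 - e1)) := by
        have h1 : y ∈ f (L C (e2 - e1) ⊔ L C e1) := hmono (rel1 e2 e1) hy
        rw [hsup, Submodule.mem_sup] at h1
        obtain ⟨s, hs, z, hz, rfl⟩ := h1
        exact ⟨z, hz, by simpa using hs⟩
      have h2 := key hsw hy hx hyx q
      rw [h0, zero_smul, sub_zero] at h2
      exact h2
    have h2 := hrefl h1
    have h3 : e2 ∈ L C e2 := (mem_L C).2 ⟨1, by simp⟩
    obtain ⟨k, hk⟩ := (mem_L C).1 (h2 h3)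
    have h4 : (k * q) • e1 + (1 - k) • e2 + (0 : ℤ) • e3 ∈ C := by
      convert hk using 1
      module
    obtain ⟨h5, h6, -⟩ := (he _ _ _).1 h4
    have h7 : (m : ℤ) ∣ (q : ℤ) := by
      exact dvd_cast (dvd_add (Dvd.dvd.mul_right h6 (q : ℤ)) h5) (by ring)
    exact hqm' (by exact_mod_cast h7)
  · -- `q` is invertible in `D`
    have h1 : f (L C e1) ≤ f (L C ((q : ℤ) • e1)) := by
      intro x hx
      obtain ⟨y, hy, hxy⟩ : ∃ y, y ∈ f (L C e2) ∧ y - x ∈ f (L C (e2 - e1)) := by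
        have h1 : x ∈ f (L C (e1 - e2) ⊔ L C e2) := hmono (rel1 e1 e2) hx
        rw [hsup, Submodule.mem_sup] at h1
        obtain ⟨s, hs, z, hz, rfl⟩ := h1
        refine ⟨z, hz, ?_⟩
        have h2 : L C (e1 - e2) ≤ L C (e2 - e1) := by
          intro t ht
          obtain ⟨k, hk⟩ := (mem_L C).1 ht
          refine (mem_L C).2 ⟨-k, ?_⟩
          convert hk using 1
          module
        have h3 := Submodule.neg_mem _ (hmono h2 hs)
        convert h3 using 1
        abel
      have h2 := key hsw hy hx hxy q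
      have h3 : (q : D) • x ∈ f (L C ((q : ℤ) • e1)) := by
        apply hmono (rel5 he q)
        rw [hinf, hsup]
        refine ⟨Submodule.smul_mem _ _ hx, ?_⟩
        have h4 : (q : D) • x = y - (y - (q : D) • x) := by abel
        rw [h4]
        exact Submodule.sub_mem _ (Submodule.mem_sup_left hy) (Submodule.mem_sup_right h2)
      have h5 := Submodule.smul_mem _ ((q : D)⁻¹) h3
      rwa [smul_smul, inv_mul_cancel₀ h0, one_smul] at h5
    have h2 := hrefl h1
    have h3 : e1 ∈ L C e1 := (mem_L C).2 ⟨1, by simp⟩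
    obtain ⟨k, hk⟩ := (mem_L C).1 (h2 h3)
    have h4 : (1 - k * q) • e1 + (0 : ℤ) • e2 + (0 : ℤ) • e3 ∈ C := by
      convert hk using 1
      module
    obtain ⟨h5, -, -⟩ := (he _ _ _).1 h4
    have h6 : (q : ℤ) ∣ 1 - k * q := dvd_trans (by exact_mod_cast hqm) h5
    have h7 : (q : ℤ) ∣ 1 := by
      have := dvd_add h6 (Dvd.intro_left k rfl : (q : ℤ) ∣ k * q)
      simpa using this
    exact hq.one_lt.ne' (by exact_mod_cast Int.eq_one_of_dvd_one (by positivity) h7)

end criterion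

/-- If a subgroup `B` of `A` maps onto `(ℤ/m)³`, then `A` satisfies the hypothesis of the
criterion. -/
lemma basis3_of_section {A : Type w} [AddCommGroup A] (B : AddSubgroup A) (m : ℕ)
    (φ : B →+ (Fin 3 → ZMod m)) (hφ : Function.Surjective φ) :
    ∃ (C : AddSubgroup A) (e1 e2 e3 : A), Basis3 C m e1 e2 e3 := by
  obtain ⟨b1, h1⟩ := hφ (Pi.single 0 1)
  obtain ⟨b2, h2⟩ := hφ (Pi.single 1 1)
  obtain ⟨b3, h3⟩ := hφ (Pi.single 2 1)
  refine ⟨φ.ker.map B.subtype, b1, b2, b3, ?_⟩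
  intro a b c
  have key : a • (b1 : A) + b • (b2 : A) + c • (b3 : A) ∈ φ.ker.map B.subtype ↔
      φ (a • b1 + b • b2 + c • b3) = 0 := by
    rw [AddSubgroup.mem_map]
    constructor
    · rintro ⟨x, hx, hx'⟩
      have : x = a • b1 + b • b2 + c • b3 := by
        apply Subtype.ext
        simpa using hx'
      rw [← this]
      exact hx
    · intro h
      exact ⟨_, h, by simp⟩
  rw [key, map_add, map_add, map_zsmul, map_zsmul, map_zsmul, h1, h2, h3]
  rw [← ZMod.intCast_zmod_eq_zero_iff_dvd, ← ZMod.intCast_zmod_eq_zero_iff_dvd,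
    ← ZMod.intCast_zmod_eq_zero_iff_dvd, funext_iff, Fin.forall_fin_succ, Fin.forall_fin_succ,
    Fin.forall_fin_succ]
  simp

lemma embeds_prime (n p : ℕ) (hp : p.Prime) : SubEmbeds.{u, v} (Fin n → ZMod p) := by
  have : Fact p.Prime := ⟨hp⟩
  refine ⟨ULift.{u} (ZMod p), inferInstance, ULift.{v} (Fin n → ZMod p), inferInstance,
    inferInstance, fun H =>
      { carrier := {x | x.down ∈ H}
        add_mem' := fun ha hb => H.add_mem ha hb
        zero_mem' := H.zero_mem
        smul_mem' := ?_ }, ?_, ?_, ?_⟩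
  · intro c x hx
    change (c • x).down ∈ H
    have h1 : (c • x).down = c.down • x.down := rfl
    rw [h1]
    exact ZMod.smul_mem hx _
  · intro H K h
    ext x
    have := SetLike.ext_iff.1 h (ULift.up x)
    exact this
  · intro H K
    ext x
    exact Iff.rfl
  · intro H K
    ext x
    rw [Submodule.mem_sup]
    change x.down ∈ H ⊔ K ↔ _
    rw [AddSubgroup.mem_sup]
    constructor
    · rintro ⟨y, hy, z, hz, h⟩
      exact ⟨ULift.up y, hy, ULift.up z, hz, ULift.ext _ _ h⟩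
    · rintro ⟨y, hy, z, hz, rfl⟩
      exact ⟨y.down, hy, z.down, hz, rfl⟩

lemma embeds_one (n : ℕ) : SubEmbeds.{u, v} (Fin n → ZMod 1) := by
  refine ⟨ULift.{u} ℚ, inferInstance, PUnit.{v + 1}, inferInstance, inferInstance, fun _ => ⊥,
    ?_, ?_, ?_⟩
  · intro H K _
    ext x
    have hx : x = 0 := Subsingleton.elim _ _
    rw [hx]
    exact ⟨fun _ => K.zero_mem, fun _ => H.zero_mem⟩
  · intro _ _
    simp
  · intro _ _
    simp

/-- **Subgroup lattices that do not embed into subspace lattices over division rings.**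

(1) Let `A` be an abelian group with a section `(ℤ/m)³` (a subgroup `B` of `A` maps onto
`(ℤ/m)³`), where `m ≠ 1` is not a prime; `m = 0` is allowed, `ℤ/0 = ℤ`. Then for no division ring
`D` and no `D`-vector space `V` there is a lattice embedding of `Sub(A)` into `Sub_D(V)`.

(2) For `n ≥ 3` the lattice `Sub((ℤ/m)ⁿ)` has a lattice embedding into `Sub_D(V)` for some
division ring `D` and some `D`-vector space `V` if and only if `m = 1` or `m` is a prime. So the
finite groups `(ℤ/m)³`, `m = 4, 6, 8, 9, 10, …`, are examples as asked for. -/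
theorem result :
    (∀ (A : Type w) [AddCommGroup A] (B : AddSubgroup A) (m : ℕ) (φ : B →+ (Fin 3 → ZMod m)),
      Function.Surjective φ → m ≠ 1 → ¬ m.Prime → ¬ SubEmbeds.{u, v} A) ∧
    ∀ n m : ℕ, 3 ≤ n → (SubEmbeds.{u, v} (Fin n → ZMod m) ↔ m = 1 ∨ m.Prime) := by
  have h1 : ∀ (A : Type w) [AddCommGroup A] (B : AddSubgroup A) (m : ℕ)
      (φ : B →+ (Fin 3 → ZMod m)), Function.Surjective φ → m ≠ 1 → ¬ m.Prime →
      ¬ SubEmbeds.{u, v} A := by
    rintro A _ B m φ hφ hm hp ⟨D, _, V, _, _, f, hf⟩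
    obtain ⟨C, e1, e2, e3, he⟩ := basis3_of_section B m φ hφ
    exact not_embeds he hm hp f hf
  have h2 : ∀ (A : Type) [AddCommGroup A] (B : AddSubgroup A) (m : ℕ)
      (φ : B →+ (Fin 3 → ZMod m)), Function.Surjective φ → m ≠ 1 → ¬ m.Prime →
      ¬ SubEmbeds.{u, v} A := by
    rintro A _ B m φ hφ hm hp ⟨D, _, V, _, _, f, hf⟩
    obtain ⟨C, e1, e2, e3, he⟩ := basis3_of_section B m φ hφ
    exact not_embeds he hm hp f hf
  refine ⟨h1, fun n m hn => ⟨fun h => ?_, ?_⟩⟩
  · by_contra hcon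
    push Not at hcon
    refine h2 (Fin n → ZMod m) ⊤ m
      { toFun := fun x i => (x : Fin n → ZMod m) (Fin.castLE hn i)
        map_zero' := rfl
        map_add' := fun _ _ => rfl } ?_ hcon.1 hcon.2 h
    intro y
    refine ⟨⟨fun i => if h : (i : ℕ) < 3 then y ⟨i, h⟩ else 0, trivial⟩, ?_⟩
    funext i
    change (if h : ((Fin.castLE hn i : Fin n) : ℕ) < 3 then y ⟨_, h⟩ else 0) = y i
    rw [dif_pos (by simp)]
    rfl
  · rintro (rfl | hp)
    · exact embeds_one n
    · exact embeds_prime n m hp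

end Pool.Agent.Results.MP_0a2dc5_al.HomocyclicGroups
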